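import Mathlib
import Pool.Agent.Y333.RP.Gap

/-!
# Powers of edge ideals of gap-free graphs and (im,reg)-invariant extensions

Definitions used from the files `Pool.Agent.H677R3.RegKoszul` and `RegDeg`:
* `edgeIdeal K G` is the ideal of `K[x_0,…,x_{n-1}]` spanned by the `x_i x_j`, `i` adjacent to `j`;
* `TorNe J i e`: the Koszul homology `H_i(x_1,…,x_n; J) = Tor_i(J, K)` is nonzero in internal
  degree `i + e`;
* `IsReg J r`: `r` is the greatest `e` such that `TorNe J i e` for some `i`, i.e. `reg J = r`.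
-/

universe u

set_option autoImplicit false

namespace Pool.Agent.Results.MP_3df448_al.InvariantExtension

open Pool.Agent.H677R3.EdgeReg Pool.Agent.H677R3.Ab Pool.Agent.Y333.RP

/-- `G` has an induced matching with `s` edges `a i b i`. -/
def HasInducedMatching {V : Type} (G : SimpleGraph V) (s : ℕ) : Prop :=
  ∃ a b : Fin s → V, (∀ i, G.Adj (a i) (b i)) ∧
    ∀ i j, i ≠ j → (a i ≠ a j ∧ a i ≠ b j ∧ b i ≠ b j) ∧
      ¬ G.Adj (a i) (a j) ∧ ¬ G.Adj (a i) (b j) ∧ ¬ G.Adj (b i) (b j)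

/-- `im(G) = m`: the largest size of an induced matching of `G` is `m`. -/
def IsIm {V : Type} (G : SimpleGraph V) (m : ℕ) : Prop :=
  IsGreatest {s | HasInducedMatching G s} m

/-- `G` has no isolated vertex. -/
def NoIsolated {V : Type} (G : SimpleGraph V) : Prop := ∀ v, ∃ w, G.Adj v w

/-- `G'` is an (im,reg)-invariant extension of `G` over the field `K`: the vertex set of `G'` is
that of `G` with one new vertex (the last one), the induced subgraph of `G'` on the old vertices is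
`G`, `im(G') = im(G)` and `reg I(G') = reg I(G)`. -/
structure IsInvExt (K : Type u) [Field K] {n : ℕ} (G : SimpleGraph (Fin n))
    (G' : SimpleGraph (Fin (n + 1))) : Prop where
  restrict : ∀ u v : Fin n, G'.Adj u.castSucc v.castSucc ↔ G.Adj u v
  noIsolated : NoIsolated G'
  im_eq : ∀ m, IsIm G' m ↔ IsIm G m
  reg_eq : ∀ r, IsReg (edgeIdeal K G') r ↔ IsReg (edgeIdeal K G) r

lemma edge_of_im {n : ℕ} {G : SimpleGraph (Fin n)} (h : IsIm G 1) : ∃ u v, G.Adj u v := by
  obtain ⟨a, b, h1, _⟩ := h.1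
  exact ⟨a 0, b 0, h1 0⟩

lemma gapFree_of_im {n : ℕ} {G : SimpleGraph (Fin n)} (h : IsIm G 1) : GapFree G := by
  intro a b c d hab hcd h1 h2 h3 h4
  by_contra hcon
  push Not at hcon
  obtain ⟨g1, g2, g3, g4⟩ := hcon
  have h2' : HasInducedMatching G 2 := by
    refine ⟨![a, c], ![b, d], ?_, ?_⟩
    · intro i
      fin_cases i
      · exact hab
      · exact hcd
    · intro i j hij
      fin_cases i <;> fin_cases j
      · exact absurd rfl hij
      · exact ⟨⟨h1, h2, h4⟩, g1, g2, g4⟩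
      · exact ⟨⟨h1.symm, h3.symm, h4.symm⟩, fun h => g1 h.symm, fun h => g3 h.symm,
          fun h => g4 h.symm⟩
      · exact absurd rfl hij
  have := h.2 h2'
  omega

/-- Full affirmative answer. Let `G` be a gap-free graph (`im(G) = 1`) without isolated vertices
and `G'` an (im,reg)-invariant extension of `G`. Then `reg I(G')^k = reg I(G)^k` for every
`k ≥ 1`; in particular, if `c` is an integer such that `reg I(G)^k = 2k` for every `k ≥ c`, then
`reg I(G')^k = 2k` for every `k ≥ c`. -/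
theorem result (K : Type u) [Field K] (n : ℕ) (G : SimpleGraph (Fin n))
    (G' : SimpleGraph (Fin (n + 1))) (_hiso : NoIsolated G) (hgap : IsIm G 1)
    (hext : IsInvExt K G G') :
    (∀ k : ℕ, 1 ≤ k → ∃ s : ℕ, IsReg ((edgeIdeal K G) ^ k) s ∧ IsReg ((edgeIdeal K G') ^ k) s) ∧
    ∀ c : ℤ, (∀ k : ℕ, 1 ≤ k → c ≤ k → IsReg ((edgeIdeal K G) ^ k) (2 * k)) →
      ∀ k : ℕ, 1 ≤ k → c ≤ k → IsReg ((edgeIdeal K G') ^ k) (2 * k) := by
  have hgap' : IsIm G' 1 := (hext.im_eq 1).2 hgap
  obtain ⟨r, σ, h1, h2, _, h4⟩ := formula' K G (edge_of_im hgap)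
  obtain ⟨r', σ', h1', h2', _, h4'⟩ := formula' K G' (edge_of_im hgap')
  have hσ : σ = 1 := (sigma_eq_one_iff K G σ h2).2 (gapFree_of_im hgap)
  have hσ' : σ' = 1 := (sigma_eq_one_iff K G' σ' h2').2 (gapFree_of_im hgap')
  have hr : r' = r := IsGreatest.unique ((hext.reg_eq r').1 h1') h1
  subst hσ hσ' hr
  have key : ∀ k : ℕ, 1 ≤ k → ∃ s : ℕ, IsReg ((edgeIdeal K G) ^ k) s ∧
      IsReg ((edgeIdeal K G') ^ k) s := fun k hk => ⟨_, h4 k hk, h4' k hk⟩
  refine ⟨key, fun c hc k hk hck => ?_⟩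
  obtain ⟨s, hs, hs'⟩ := key k hk
  have : s = 2 * k := IsGreatest.unique hs (hc k hk hck)
  rw [← this]
  exact hs'

end Pool.Agent.Results.MP_3df448_al.InvariantExtension
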